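import Mathlib
import Pool.Agent.Lib.MP_7da865_gt.Defs
import Pool.Agent.Lib.MP_7da865_gt.Final

/-!
# No regular map from the hyperbolic plane to a 3-regular tree times a subexponential graph
-/

namespace Pool.Agent.Results.MP_7da865_gt.NoRegularMap

open SimpleGraph Pool.Agent.Lib.MP_7da865_gt

/-- **Theorem.**  Let `G` be a connected graph of bounded degree that is quasi-isometric to the
hyperbolic plane, `T` the 3-regular tree, and `Y` a connected graph of bounded degree and of
subexponential growth.  Then there is no regular map from `G` to the Cartesian product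
`T □ Y`. -/
theorem result {V W U : Type*}
    (G : SimpleGraph V) (hG : G.Connected) (hGdeg : BoundedDegree G)
    (hGqi : QuasiIsometricToHyperbolicPlane G)
    (T : SimpleGraph W) (hT : T.IsTree) (hT3 : ∀ w : W, (T.neighborSet w).encard = 3)
    (Y : SimpleGraph U) (hY : Y.Connected) (hYdeg : BoundedDegree Y)
    (hYsub : SubexponentialGrowth Y) :
    ¬ ∃ f : V → W × U, IsRegularMap G (T □ Y) f :=
  no_regular_map G hG hGdeg hGqi T hT hT3 Y hY hYdeg hYsub

end Pool.Agent.Results.MP_7da865_gt.NoRegularMap
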